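import Pool.Agent.W623.SecC.Defs

/-!
# SC-A2: halving points (helper52)
-/

set_option autoImplicit false

namespace Pool.Agent.W52.SecC.A2

open Pool.Agent.W623.SecC Polynomial

universe u

section

variable {K : Type u} [Field K] [CharZero K]

theorem eqn {e : Fin 3 → K} {x y : K} (h : WeierstrassCurve.Affine.Equation (crv e) x y) :
    y ^ 2 = (x - e 0) * (x - e 1) * (x - e 2) := by
  rw [WeierstrassCurve.Affine.equation_iff] at h
  simp only [crv] at h
  linear_combination h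

theorem isU_neg {V : ValuationSubring K} {x : K} (h : IsU V x) : IsU V (-x) := by
  obtain ⟨h1, h2, h3⟩ := h
  refine ⟨neg_ne_zero.2 h1, neg_mem h2, ?_⟩
  rw [inv_neg]
  exact neg_mem h3

open Classical in
theorem halve {e : Fin 3 → K} (hne : ∀ i j, i ≠ j → e i ≠ e j) {x₀ y₀ : K}
    (h : WeierstrassCurve.Affine.Nonsingular (crv e) x₀ y₀) {r : Fin 3 → K}
    (hr : ∀ i, r i ^ 2 = x₀ - e i) (hy : r 0 * r 1 * r 2 = y₀) :
    ∃ Q : WeierstrassCurve.Affine.Point (crv e),
      2 • Q = WeierstrassCurve.Affine.Point.some x₀ y₀ h := by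
  have hs : ∀ i j, i ≠ j → r i + r j ≠ 0 := by
    intro i j hij h0
    have h1 : (r i + r j) * (r i - r j) = e j - e i := by
      linear_combination hr i - hr j
    rw [h0, zero_mul] at h1
    exact hne i j hij (sub_eq_zero.1 h1.symm).symm
  have h01 := hs 0 1 (by decide)
  have h02 := hs 0 2 (by decide)
  have h12 := hs 1 2 (by decide)
  obtain ⟨x₁, hx₁⟩ : ∃ x₁, x₁ = x₀ + r 0 * r 1 + r 0 * r 2 + r 1 * r 2 := ⟨_, rfl⟩
  obtain ⟨y₁, hy₁⟩ : ∃ y₁, y₁ = (r 0 + r 1) * (r 0 + r 2) * (r 1 + r 2) := ⟨_, rfl⟩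
  have hy₁0 : y₁ ≠ 0 := by rw [hy₁]; exact mul_ne_zero (mul_ne_zero h01 h02) h12
  have e0 : e 0 = x₀ - r 0 ^ 2 := by rw [hr 0]; ring
  have e1 : e 1 = x₀ - r 1 ^ 2 := by rw [hr 1]; ring
  have e2 : e 2 = x₀ - r 2 ^ 2 := by rw [hr 2]; ring
  have heq : WeierstrassCurve.Affine.Equation (crv e) x₁ y₁ := by
    rw [WeierstrassCurve.Affine.equation_iff]
    simp only [crv]
    rw [e0, e1, e2, hx₁, hy₁]
    ring
  have hns : WeierstrassCurve.Affine.Nonsingular (crv e) x₁ y₁ := by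
    rw [WeierstrassCurve.Affine.nonsingular_iff]
    refine ⟨heq, Or.inr ?_⟩
    simp only [crv, zero_mul, sub_zero]
    intro hc
    have : 2 * y₁ = 0 := by linear_combination hc
    rcases mul_eq_zero.1 this with h5 | h5
    · exact two_ne_zero h5
    · exact hy₁0 h5
  refine ⟨WeierstrassCurve.Affine.Point.some x₁ y₁ hns, ?_⟩
  have hneg : y₁ ≠ WeierstrassCurve.Affine.negY (crv e) x₁ y₁ := by
    simp only [WeierstrassCurve.Affine.negY, crv, zero_mul, sub_zero]
    intro hc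
    have : 2 * y₁ = 0 := by linear_combination hc
    rcases mul_eq_zero.1 this with h5 | h5
    · exact two_ne_zero h5
    · exact hy₁0 h5
  have hslope : WeierstrassCurve.Affine.slope (crv e) x₁ x₁ y₁ y₁ = r 0 + r 1 + r 2 := by
    rw [WeierstrassCurve.Affine.slope_of_Y_ne rfl hneg]
    simp only [WeierstrassCurve.Affine.negY, crv, zero_mul, sub_zero]
    have h5 : y₁ - -y₁ ≠ 0 := by
      intro hc
      have : 2 * y₁ = 0 := by linear_combination hc
      rcases mul_eq_zero.1 this with h5 | h5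
      · exact two_ne_zero h5
      · exact hy₁0 h5
    rw [div_eq_iff h5, e0, e1, e2, hx₁, hy₁]
    ring
  have hX : WeierstrassCurve.Affine.addX (crv e) x₁ x₁ (r 0 + r 1 + r 2) = x₀ := by
    simp only [WeierstrassCurve.Affine.addX, crv]
    rw [e0, e1, e2, hx₁]
    ring
  have hY : WeierstrassCurve.Affine.addY (crv e) x₁ x₁ y₁ (r 0 + r 1 + r 2) = y₀ := by
    unfold WeierstrassCurve.Affine.addY WeierstrassCurve.Affine.negAddY
    rw [hX]
    simp only [WeierstrassCurve.Affine.negY, crv]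
    rw [hx₁, hy₁, ← hy]
    ring
  rw [two_nsmul, WeierstrassCurve.Affine.Point.add_self_of_Y_ne hneg]
  have hX' : WeierstrassCurve.Affine.addX (crv e) x₁ x₁
      (WeierstrassCurve.Affine.slope (crv e) x₁ x₁ y₁ y₁) = x₀ := by rw [hslope, hX]
  have hY' : WeierstrassCurve.Affine.addY (crv e) x₁ x₁ y₁
      (WeierstrassCurve.Affine.slope (crv e) x₁ x₁ y₁ y₁) = y₀ := by rw [hslope, hY]
  congr 1

end

theorem partA2 (h1 : PartA1.{u}) : PartA2.{u} := by
  classical
  intro K _ _ V h2 hsq e he W hW n P hP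
  subst hW
  have hne : ∀ i j, i ≠ j → e i ≠ e j := by
    intro i j hij h0
    exact (he.2 i j hij).1 (sub_eq_zero.2 h0)
  cases P with
  | zero => exact ⟨0, nsmul_zero 2⟩
  | some x₀ y₀ h =>
    obtain ⟨hx, hy, hc⟩ := h1 K V h2 e he (crv e) rfl n x₀ y₀ h hP
    have hroots : ∀ i, ∃ ρ : K, ρ ^ 2 = x₀ - e i := by
      rcases hc with hc | hc
      · have h3 := eqn h.1
        rw [hc] at h3
        have h4 : (x₀ - e 0) * ((x₀ - e 1) * (x₀ - e 2)) = 0 := by linear_combination -h3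
        have h5 : ∃ j, x₀ = e j := by
          rcases mul_eq_zero.1 h4 with h6 | h6
          · exact ⟨0, sub_eq_zero.1 h6⟩
          · rcases mul_eq_zero.1 h6 with h7 | h7
            · exact ⟨1, sub_eq_zero.1 h7⟩
            · exact ⟨2, sub_eq_zero.1 h7⟩
        obtain ⟨j, hj⟩ := h5
        intro i
        by_cases hij : i = j
        · exact ⟨0, by rw [hj, hij]; ring⟩
        · rw [hj]
          exact hsq _ (he.2 j i (Ne.symm hij))
      · exact fun i => hsq _ (hc i)
    choose ρ hρ using hroots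
    have h3 : (ρ 0 * ρ 1 * ρ 2) ^ 2 = y₀ ^ 2 := by
      rw [mul_pow, mul_pow, hρ, hρ, hρ, eqn h.1]
    rcases sq_eq_sq_iff_eq_or_eq_neg.1 h3 with h4 | h4
    · exact halve hne h hρ h4
    · refine halve hne h (r := fun i => -ρ i) (fun i => by rw [neg_sq, hρ]) ?_
      linear_combination -h4

end Pool.Agent.W52.SecC.A2
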