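import Pool.Agent.W623.SecC.Defs

/-!
# SC-A3: finiteness of the points killed by `2 ^ n` (helper52)
-/

set_option autoImplicit false

namespace Pool.Agent.W52.SecC.A3

open Pool.Agent.W623.SecC Polynomial

universe u

section

variable {K : Type u} [Field K]

/-- coordinates of a point -/
def coo {W : WeierstrassCurve.Affine K} : W.Point → Option (K × K)
  | .zero => none
  | .some x y _ => some (x, y)

theorem coo_inj {W : WeierstrassCurve.Affine K} : Function.Injective (coo (W := W)) := by
  intro P Q h
  cases P with
  | zero =>
    cases Q with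
    | zero => rfl
    | some x y _ => simp [coo] at h
  | some x y _ =>
    cases Q with
    | zero => simp [coo] at h
    | some x' y' _ =>
      simp only [coo, Option.some.injEq, Prod.mk.injEq] at h
      obtain ⟨rfl, rfl⟩ := h
      rfl

theorem eqn {e : Fin 3 → K} {x : K} (h : WeierstrassCurve.Affine.Equation (crv e) x 0) :
    x = e 0 ∨ x = e 1 ∨ x = e 2 := by
  rw [WeierstrassCurve.Affine.equation_iff] at h
  simp only [crv] at h
  have h1 : (x - e 0) * ((x - e 1) * (x - e 2)) = 0 := by linear_combination -h
  rcases mul_eq_zero.1 h1 with h2 | h2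
  · exact Or.inl (sub_eq_zero.1 h2)
  · rcases mul_eq_zero.1 h2 with h3 | h3
    · exact Or.inr (Or.inl (sub_eq_zero.1 h3))
    · exact Or.inr (Or.inr (sub_eq_zero.1 h3))

open Classical in
theorem ker_finite [CharZero K] (e : Fin 3 → K) :
    {P : WeierstrassCurve.Affine.Point (crv e) | 2 • P = 0}.Finite := by
  have hfin : ({none, some (e 0, 0), some (e 1, 0), some (e 2, 0)} : Set (Option (K × K))).Finite :=
    Set.toFinite _
  refine (hfin.preimage (coo_inj (W := crv e)).injOn).subset ?_
  intro P hP
  have hP' : P + P = 0 := by rw [← two_nsmul]; exact hP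
  cases P with
  | zero => exact Or.inl rfl
  | some x y h =>
    right
    have h1 := add_eq_zero_iff_eq_neg.1 hP'
    rw [WeierstrassCurve.Affine.Point.neg_some] at h1
    have h2 : y = WeierstrassCurve.Affine.negY (crv e) x y := by
      injection h1
    have h3 : y = 0 := by
      simp only [WeierstrassCurve.Affine.negY, crv] at h2
      have h4 : 2 * y = 0 := by linear_combination h2
      rcases mul_eq_zero.1 h4 with h5 | h5
      · exact absurd h5 two_ne_zero
      · exact h5
    subst h3
    rcases eqn h.1 with h4 | h4 | h4
    · left; rw [coo, h4]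
    · right; left; rw [coo, h4]
    · right; right; rw [coo, h4]; rfl

end

theorem partA3 : PartA3.{u} := by
  classical
  intro K _ _ e W hW n
  subst hW
  induction n with
  | zero =>
    refine (Set.finite_singleton (0 : WeierstrassCurve.Affine.Point (crv e))).subset ?_
    intro P hP
    have : (2 ^ 0) • P = 0 := hP
    rw [pow_zero, one_nsmul] at this
    exact this
  | succ n ih =>
    have h1 : {P : WeierstrassCurve.Affine.Point (crv e) | 2 ^ (n + 1) • P = 0} =
        (fun P => 2 • P) ⁻¹' {P : WeierstrassCurve.Affine.Point (crv e) | 2 ^ n • P = 0} := by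
      ext P
      simp only [Set.mem_ofPred_eq, Set.mem_preimage]
      rw [← mul_nsmul', pow_succ]
    rw [h1]
    refine ih.preimage' fun b _ => ?_
    rcases Set.eq_empty_or_nonempty ((fun P : WeierstrassCurve.Affine.Point (crv e) => 2 • P) ⁻¹'
      {b}) with h2 | ⟨P0, hP0⟩
    · rw [h2]; exact Set.finite_empty
    · refine ((ker_finite e).image (fun P => P0 + P)).subset ?_
      intro P hP
      refine ⟨P - P0, ?_, add_sub_cancel P0 P⟩
      have e1 : 2 • P = b := hP
      have e2 : 2 • P0 = b := hP0
      change 2 • (P - P0) = 0
      rw [nsmul_sub, e1, e2, sub_self]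

end Pool.Agent.W52.SecC.A3
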