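import Pool.Agent.W623.SecC.Defs

/-!
# SC-D3: a derangement of the roots of an irreducible polynomial (helper52)
-/

set_option autoImplicit false

namespace Pool.Agent.W52.SecC.D3

open Pool.Agent.W623.SecC Polynomial

universe u

theorem partD3 : PartD3.{u} := by
  classical
  intro K _ _ f hf hdeg
  have hsp : Fact ((f.map (algebraMap K (AlgebraicClosure K))).Splits) := ⟨IsAlgClosed.splits _⟩
  have htr : MulAction.IsPretransitive f.Gal (f.rootSet (AlgebraicClosure K)) :=
    Polynomial.Gal.galAction_isPretransitive f (AlgebraicClosure K) hf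
  have hcard : Fintype.card (f.rootSet (AlgebraicClosure K)) = f.natDegree :=
    card_rootSet_eq_natDegree hf.separable hsp.out
  by_contra hc
  push Not at hc
  have : Fintype f.Gal := Fintype.ofFinite _
  have hfix : ∀ g : f.Gal,
      1 ≤ Fintype.card (MulAction.fixedBy (f.rootSet (AlgebraicClosure K)) g) := by
    intro g
    obtain ⟨σ, hσ⟩ := Polynomial.Gal.restrict_surjective f (AlgebraicClosure K) g
    obtain ⟨θ, hθ, hθ2⟩ := hc σ
    have hmem : θ ∈ f.rootSet (AlgebraicClosure K) := by
      rw [mem_rootSet]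
      exact ⟨hf.ne_zero, hθ⟩
    have hx : (⟨θ, hmem⟩ : f.rootSet (AlgebraicClosure K)) ∈
        MulAction.fixedBy (f.rootSet (AlgebraicClosure K)) g := by
      rw [MulAction.mem_fixedBy]
      apply Subtype.ext
      rw [← hσ, Polynomial.Gal.restrict_smul]
      exact hθ2
    exact Fintype.card_pos_iff.2 ⟨⟨_, hx⟩⟩
  have hone : 1 < Fintype.card
      (MulAction.fixedBy (f.rootSet (AlgebraicClosure K)) (1 : f.Gal)) := by
    have h1 : MulAction.fixedBy (f.rootSet (AlgebraicClosure K)) (1 : f.Gal) = Set.univ := by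
      ext x
      simp [MulAction.mem_fixedBy]
    have h2 : Fintype.card (MulAction.fixedBy (f.rootSet (AlgebraicClosure K)) (1 : f.Gal)) =
        Fintype.card (f.rootSet (AlgebraicClosure K)) := by
      rw [← Set.toFinset_card]
      simp only [h1, Set.toFinset_univ, Finset.card_univ]
    rw [h2, hcard]
    omega
  have hlt : ∑ _g : f.Gal, 1 < ∑ g : f.Gal,
      Fintype.card (MulAction.fixedBy (f.rootSet (AlgebraicClosure K)) g) :=
    Finset.sum_lt_sum (fun g _ => hfix g) ⟨1, Finset.mem_univ _, hone⟩
  have horb : Fintype.card (MulAction.orbitRel.Quotient f.Gal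
      (f.rootSet (AlgebraicClosure K))) ≤ 1 := by
    rw [Fintype.card_le_one_iff_subsingleton]
    exact (MulAction.pretransitive_iff_subsingleton_quotient _ _).1 htr
  have hB := MulAction.sum_card_fixedBy_eq_card_orbits_mul_card_group f.Gal
    (f.rootSet (AlgebraicClosure K))
  rw [hB, Finset.sum_const, Finset.card_univ, smul_eq_mul, mul_one] at hlt
  have hle : Fintype.card (MulAction.orbitRel.Quotient f.Gal
      (f.rootSet (AlgebraicClosure K))) * Fintype.card f.Gal ≤ 1 * Fintype.card f.Gal :=
    Nat.mul_le_mul_right _ horb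
  rw [one_mul] at hle
  exact absurd hlt (not_lt.2 hle)

end Pool.Agent.W52.SecC.D3
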